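import Pool.Agent.H54.PM.Targets

set_option autoImplicit false

namespace Pool.Agent.H82.PMF

open Pool.Agent.H54.PM
open scoped symmDiff ComplexConjugate

/-- the angle -/
noncomputable def th (d : ℕ) : ℝ := 2 * Real.pi / d

/-- the root of unity -/
noncomputable def ze (d : ℕ) : ℂ := Complex.exp ((th d : ℂ) * Complex.I)

theorem ze_pow (d m : ℕ) : ze d ^ m = Complex.exp (((m * th d : ℝ) : ℂ) * Complex.I) := by
  unfold ze
  rw [← Complex.exp_nat_mul]
  congr 1
  push_cast
  ring

theorem ze_pow_re (d m : ℕ) : (ze d ^ m).re = Real.cos (m * th d) := by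
  rw [ze_pow, Complex.exp_ofReal_mul_I_re]

theorem ze_pow_im (d m : ℕ) : (ze d ^ m).im = Real.sin (m * th d) := by
  rw [ze_pow, Complex.exp_ofReal_mul_I_im]

theorem d_th (d : ℕ) (hd : 4 ≤ d) : d * th d = 2 * Real.pi := by
  unfold th
  have : (d : ℝ) ≠ 0 := by
    have : d ≠ 0 := by omega
    exact_mod_cast this
  field_simp

theorem ze_pow_d (d : ℕ) (hd : 4 ≤ d) : ze d ^ d = 1 := by
  apply Complex.ext
  · rw [ze_pow_re, d_th d hd, Real.cos_two_pi, Complex.one_re]
  · rw [ze_pow_im, d_th d hd, Real.sin_two_pi, Complex.one_im]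

theorem ze_pow_mod (d : ℕ) (hd : 4 ≤ d) (m : ℕ) : ze d ^ (m % d) = ze d ^ m := by
  conv_rhs => rw [← Nat.div_add_mod m d, pow_add, pow_mul, ze_pow_d d hd, one_pow, one_mul]

theorem ze_conj (d m : ℕ) : ze d ^ m * conj (ze d ^ m) = 1 := by
  rw [Complex.mul_conj, Complex.normSq_apply, ze_pow_re, ze_pow_im]
  have := Real.cos_sq_add_sin_sq (m * th d)
  norm_cast
  nlinarith

theorem th_pos (d : ℕ) (hd : 4 ≤ d) : 0 < th d := by
  unfold th
  have : (0 : ℝ) < d := by
    have : 0 < d := by omega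
    exact_mod_cast this
  positivity

theorem th_le (d : ℕ) (hd : 4 ≤ d) : th d ≤ Real.pi / 2 := by
  unfold th
  have h4 : (4 : ℝ) ≤ d := by exact_mod_cast hd
  have hp := Real.pi_pos
  rw [div_le_iff₀ (by linarith)]
  nlinarith

theorem sin_th (d : ℕ) (hd : 4 ≤ d) : 0 < Real.sin (th d) :=
  Real.sin_pos_of_pos_of_lt_pi (th_pos d hd) (by linarith [th_le d hd, Real.pi_pos])

theorem cos_th (d : ℕ) (hd : 4 ≤ d) : 0 ≤ Real.cos (th d) :=
  Real.cos_nonneg_of_neg_pi_div_two_le_of_le (by linarith [th_pos d hd, Real.pi_pos])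
    (th_le d hd)

/-- the function of `w` -/
noncomputable def hh (d : ℕ) (w : ℂ) : ℝ :=
  max 0 (w.re - Real.cos (th d) / Real.sin (th d) * |w.im|)

theorem hh_zero (d : ℕ) (hd : 4 ≤ d) (m : ℕ) (hm1 : 1 ≤ m) (hm2 : m + 2 ≤ d) (s t : ℝ)
    (hs : 0 ≤ s) (ht : 0 ≤ t) : hh d ((s : ℂ) * ze d ^ m + (t : ℂ) * ze d ^ (m + 1)) = 0 := by
  have hS := sin_th d hd
  have hC := cos_th d hd
  have hT := th_pos d hd
  unfold hh
  refine max_eq_left ?_
  rw [div_mul_eq_mul_div, sub_nonpos, le_div_iff₀ hS]
  have e1 : ((s : ℂ) * ze d ^ m + (t : ℂ) * ze d ^ (m + 1)).re =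
      s * Real.cos (m * th d) + t * Real.cos ((m + 1 : ℕ) * th d) := by
    rw [Complex.add_re, Complex.re_ofReal_mul, Complex.re_ofReal_mul, ze_pow_re, ze_pow_re]
  have e2 : ((s : ℂ) * ze d ^ m + (t : ℂ) * ze d ^ (m + 1)).im =
      s * Real.sin (m * th d) + t * Real.sin ((m + 1 : ℕ) * th d) := by
    rw [Complex.add_im, Complex.im_ofReal_mul, Complex.im_ofReal_mul, ze_pow_im, ze_pow_im]
  rw [e1, e2]
  push_cast
  rcases Nat.le_total (2 * m) d with h | h
  · -- the first half
    have a1 : (m : ℝ) * th d ≤ Real.pi := by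
      have h' : (2 : ℝ) * m ≤ d := by exact_mod_cast h
      have := mul_le_mul_of_nonneg_right h' hT.le
      rw [d_th d hd] at this
      linarith
    have hm1' : (1 : ℝ) ≤ m := by exact_mod_cast hm1
    have s1 : 0 ≤ Real.sin (m * th d) :=
      Real.sin_nonneg_of_nonneg_of_le_pi (by positivity) a1
    have s2 : 0 ≤ Real.sin (m * th d - th d) :=
      Real.sin_nonneg_of_nonneg_of_le_pi (by nlinarith) (by linarith)
    rw [Real.sin_sub] at s2
    have key : (s * Real.cos (m * th d) + t * Real.cos ((m + 1) * th d)) * Real.sin (th d) ≤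
        Real.cos (th d) * (s * Real.sin (m * th d) + t * Real.sin ((m + 1) * th d)) := by
      rw [add_mul (m : ℝ) 1 (th d), one_mul, Real.cos_add, Real.sin_add]
      have p1 := mul_nonneg hs s2
      have p2 := mul_nonneg ht s1
      have p3 := Real.cos_sq_add_sin_sq (th d)
      have p4 : t * Real.sin (m * th d) =
          t * Real.sin (m * th d) * (Real.cos (th d) ^ 2 + Real.sin (th d) ^ 2) := by
        rw [p3, mul_one]
      nlinarith
    exact key.trans (mul_le_mul_of_nonneg_left (le_abs_self _) hC)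
  · -- the second half
    have a1 : Real.pi ≤ (m + 1 : ℝ) * th d := by
      have h' : (d : ℝ) ≤ 2 * m := by exact_mod_cast h
      have := mul_le_mul_of_nonneg_right h' hT.le
      rw [d_th d hd] at this
      nlinarith
    have a2 : (m + 2 : ℝ) * th d ≤ 2 * Real.pi := by
      have h' : (m + 2 : ℝ) ≤ d := by exact_mod_cast hm2
      have := mul_le_mul_of_nonneg_right h' hT.le
      rwa [d_th d hd] at this
    have s1 : 0 ≤ Real.sin (2 * Real.pi - (m + 1) * th d) :=
      Real.sin_nonneg_of_nonneg_of_le_pi (by nlinarith) (by linarith)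
    have s2 : 0 ≤ Real.sin (2 * Real.pi - (m + 2) * th d) :=
      Real.sin_nonneg_of_nonneg_of_le_pi (by linarith) (by nlinarith)
    rw [Real.sin_two_pi_sub] at s1 s2
    have key : (s * Real.cos (m * th d) + t * Real.cos ((m + 1) * th d)) * Real.sin (th d) ≤
        Real.cos (th d) * (-(s * Real.sin (m * th d) + t * Real.sin ((m + 1) * th d))) := by
      have e3 : ((m : ℝ) + 2) * th d = (m + 1) * th d + th d := by ring
      rw [e3, Real.sin_add] at s2
      have e4 : Real.sin ((m + 1) * th d) =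
          Real.sin (m * th d) * Real.cos (th d) + Real.cos (m * th d) * Real.sin (th d) := by
        rw [add_mul (m : ℝ) 1 (th d), one_mul, Real.sin_add]
      have p1 := mul_nonneg hs s1
      have p2 := mul_nonneg ht s2
      have p3 : s * Real.sin ((m + 1) * th d) = s * (Real.sin (m * th d) * Real.cos (th d) +
          Real.cos (m * th d) * Real.sin (th d)) := by rw [e4]
      nlinarith
    exact key.trans (mul_le_mul_of_nonneg_left (neg_le_abs _) hC)

theorem hh_fst (d : ℕ) (hd : 4 ≤ d) (s t : ℝ) (hs : 0 ≤ s) (ht : 0 ≤ t) :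
    hh d ((s : ℂ) + (t : ℂ) * ze d) = s := by
  have hS := sin_th d hd
  have e1 : ((s : ℂ) + (t : ℂ) * ze d).re = s + t * Real.cos (th d) := by
    have := ze_pow_re d 1
    rw [pow_one] at this
    rw [Complex.add_re, Complex.re_ofReal_mul, this, Complex.ofReal_re]
    simp
  have e2 : ((s : ℂ) + (t : ℂ) * ze d).im = t * Real.sin (th d) := by
    have := ze_pow_im d 1
    rw [pow_one] at this
    rw [Complex.add_im, Complex.im_ofReal_mul, this, Complex.ofReal_im]
    simp
  unfold hh
  rw [e1, e2, abs_of_nonneg (mul_nonneg ht hS.le)]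
  have e3 : s + t * Real.cos (th d) - Real.cos (th d) / Real.sin (th d) *
      (t * Real.sin (th d)) = s := by
    field_simp
    ring
  rw [e3, max_eq_right hs]

theorem hh_conj (d : ℕ) (w : ℂ) : hh d (conj w) = hh d w := by
  unfold hh
  rw [Complex.conj_re, Complex.conj_im, abs_neg]

theorem hh_snd (d : ℕ) (hd : 4 ≤ d) (s t : ℝ) (hs : 0 ≤ s) (ht : 0 ≤ t) :
    hh d ((s : ℂ) * conj (ze d) + (t : ℂ)) = t := by
  rw [← hh_conj, map_add, map_mul, Complex.conj_conj, Complex.conj_ofReal, Complex.conj_ofReal,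
    add_comm]
  exact hh_fst d hd t s ht hs

theorem val1 {d : ℕ} [NeZero d] : (1 : Fin d).val = 1 % d := rfl

/-- the coordinate `k` -/
noncomputable def bb (d : ℕ) (k : Fin d) (z : ℂ) : ℝ := hh d (z * conj (ze d ^ k.val))

theorem bb_main (d : ℕ) [NeZero d] (hd : 4 ≤ d) (n k : Fin d) (s t : ℝ) (hs : 0 ≤ s)
    (ht : 0 ≤ t) : bb d k ((s : ℂ) * ze d ^ n.val + (t : ℂ) * ze d ^ (n.val + 1)) =
      if k = n then s else if k = n + 1 then t else 0 := by
  unfold bb
  split_ifs with h1 h2
  · rw [h1]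
    have e : ((s : ℂ) * ze d ^ n.val + (t : ℂ) * ze d ^ (n.val + 1)) * conj (ze d ^ n.val) =
        s + t * ze d := by
      have := ze_conj d n.val
      linear_combination (s + t * ze d) * this
    rw [e]
    exact hh_fst d hd s t hs ht
  · have hv : ze d ^ k.val = ze d ^ (n.val + 1) := by
      rw [h2, Fin.val_add, ze_pow_mod d hd, pow_add, pow_add, val1, ze_pow_mod d hd]
    rw [hv]
    have e : ((s : ℂ) * ze d ^ n.val + (t : ℂ) * ze d ^ (n.val + 1)) *
        conj (ze d ^ (n.val + 1)) = s * conj (ze d) + t := by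
      have h3 := ze_conj d n.val
      have h4 := ze_conj d (n.val + 1)
      rw [pow_succ, map_mul] at h4 ⊢
      linear_combination (s * conj (ze d)) * h3 + t * h4
    rw [e]
    exact hh_snd d hd s t hs ht
  · have hv : ze d ^ n.val = ze d ^ k.val * ze d ^ (n - k).val := by
      rw [← pow_add, ← ze_pow_mod d hd (k.val + (n - k).val), ← Fin.val_add, add_sub_cancel]
    have e : ((s : ℂ) * ze d ^ n.val + (t : ℂ) * ze d ^ (n.val + 1)) * conj (ze d ^ k.val) =
        (s : ℂ) * ze d ^ (n - k).val + (t : ℂ) * ze d ^ ((n - k).val + 1) := by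
      have h3 := ze_conj d k.val
      rw [pow_succ, pow_succ, hv]
      linear_combination (s * ze d ^ (n - k).val + t * ze d ^ (n - k).val * ze d) * h3
    rw [e]
    refine hh_zero d hd _ ?_ ?_ s t hs ht
    · rw [Nat.one_le_iff_ne_zero]
      intro h
      have : n - k = 0 := Fin.ext (by rw [h]; rfl)
      exact h1 (sub_eq_zero.1 this).symm
    · have hlt := (n - k).isLt
      by_contra hcon
      have h5 : (n - k).val + 1 = d := by omega
      have h6 : n - k + 1 = 0 := by
        refine Fin.ext ?_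
        rw [Fin.val_add, val1, Nat.add_mod_mod, h5, Nat.mod_self]
        rfl
      refine h2 ?_
      have h7 : n + 1 = k := by
        have : n + 1 - k = 0 := by rw [← h6]; abel
        exact sub_eq_zero.1 this
      exact h7.symm

/-- the map to the plane -/
noncomputable def fw (d : ℕ) (a : Fin d → ℝ) : ℂ := ∑ k, (a k : ℂ) * ze d ^ k.val

theorem fw_supp (d : ℕ) [NeZero d] (hd : 4 ≤ d) (a : Fin d → ℝ) (n : Fin d)
    (h : ∀ j, j ≠ n → j ≠ n + 1 → a j = 0) :
    fw d a = (a n : ℂ) * ze d ^ n.val + (a (n + 1) : ℂ) * ze d ^ (n.val + 1) := by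
  have hne : n ≠ n + 1 := by
    intro h'
    have h1 : (1 : Fin d) = 0 := by
      have := h'.symm
      rwa [add_eq_left] at this
    have h2 := congrArg Fin.val h1
    rw [val1, Nat.mod_eq_of_lt (by omega)] at h2
    exact absurd h2 (by simp)
  have hv : ze d ^ (n + 1).val = ze d ^ (n.val + 1) := by
    rw [Fin.val_add, ze_pow_mod d hd, pow_add, pow_add, val1, ze_pow_mod d hd]
  unfold fw
  rw [← Finset.sum_subset (Finset.subset_univ {n, n + 1}), Finset.sum_pair hne, hv]
  intro j _ hj
  rw [Finset.mem_insert, Finset.mem_singleton, not_or] at hj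
  rw [h j hj.1 hj.2, Complex.ofReal_zero, zero_mul]

theorem bb_fw (d : ℕ) [NeZero d] (hd : 4 ≤ d) (a : Fin d → ℝ) (ha : a ∈ Fan d) (k : Fin d) :
    bb d k (fw d a) = a k := by
  obtain ⟨ha0, n, hn⟩ := ha
  rw [fw_supp d hd a n hn, bb_main d hd n k _ _ (ha0 _) (ha0 _)]
  split_ifs with h1 h2
  · rw [h1]
  · rw [h2]
  · exact (hn k h1 h2).symm

theorem exists_fw (d : ℕ) [NeZero d] (hd : 4 ≤ d) (z : ℂ) : ∃ a ∈ Fan d, fw d a = z := by
  have hS := sin_th d hd
  have hT := th_pos d hd
  set φ : ℝ := toIcoMod Real.two_pi_pos 0 z.arg with hφ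
  have hφ1 : 0 ≤ φ := by
    have := left_le_toIcoMod Real.two_pi_pos 0 z.arg
    exact this
  have hφ2 : φ < 2 * Real.pi := by
    have := toIcoMod_lt_right Real.two_pi_pos 0 z.arg
    rwa [zero_add] at this
  have hz : z = (‖z‖ : ℂ) * Complex.exp ((φ : ℂ) * Complex.I) := by
    conv_lhs => rw [← Complex.norm_mul_exp_arg_mul_I z]
    congr 1
    have h1 : z.arg = φ + toIcoDiv Real.two_pi_pos 0 z.arg • (2 * Real.pi) := by
      rw [hφ, toIcoMod_add_toIcoDiv_zsmul]
    rw [h1]
    push_cast
    rw [zsmul_eq_mul, add_mul, Complex.exp_add]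
    have h2 : Complex.exp ((toIcoDiv Real.two_pi_pos 0 z.arg : ℂ) * (2 * Real.pi) *
        Complex.I) = 1 := by
      rw [Complex.exp_eq_one_iff]
      exact ⟨toIcoDiv Real.two_pi_pos 0 z.arg, by ring⟩
    rw [h2, mul_one]
  -- the sector
  let n : ℕ := ⌊φ / th d⌋₊
  have hn1 : (n : ℝ) * th d ≤ φ := by
    have := Nat.floor_le (div_nonneg hφ1 hT.le)
    rwa [le_div_iff₀ hT] at this
  have hn2 : φ < (n + 1) * th d := by
    have := Nat.lt_floor_add_one (φ / th d)
    rwa [div_lt_iff₀ hT] at this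
  have hnd : n < d := by
    have h1 : (n : ℝ) * th d < d * th d := by
      rw [d_th d hd]
      linarith
    have h2 := lt_of_mul_lt_mul_right h1 hT.le
    exact_mod_cast h2
  set u : ℝ := φ - n * th d with hu
  have hu1 : 0 ≤ u := by linarith
  have hu2 : u ≤ th d := by linarith
  have hpi := th_le d hd
  have hpp := Real.pi_pos
  let s : ℝ := ‖z‖ * Real.sin (th d - u) / Real.sin (th d)
  let t : ℝ := ‖z‖ * Real.sin u / Real.sin (th d)
  have hs : 0 ≤ s := div_nonneg (mul_nonneg (norm_nonneg _)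
    (Real.sin_nonneg_of_nonneg_of_le_pi (by linarith) (by linarith))) hS.le
  have ht : 0 ≤ t := div_nonneg (mul_nonneg (norm_nonneg _)
    (Real.sin_nonneg_of_nonneg_of_le_pi (by linarith) (by linarith))) hS.le
  let N : Fin d := ⟨n, hnd⟩
  let a : Fin d → ℝ := fun k => if k = N then s else if k = N + 1 then t else 0
  have hne : N + 1 ≠ N := by
    intro h'
    have h1 : (1 : Fin d) = 0 := by rwa [add_eq_left] at h'
    have h2 := congrArg Fin.val h1
    rw [val1, Nat.mod_eq_of_lt (by omega)] at h2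
    exact absurd h2 (by simp)
  have hsupp : ∀ j, j ≠ N → j ≠ N + 1 → a j = 0 := by
    intro j h1 h2
    show (if j = N then s else if j = N + 1 then t else 0) = 0
    rw [if_neg h1, if_neg h2]
  have ha : a ∈ Fan d := by
    refine ⟨fun k => ?_, N, hsupp⟩
    show 0 ≤ if k = N then s else if k = N + 1 then t else 0
    split_ifs
    · exact hs
    · exact ht
    · exact le_rfl
  refine ⟨a, ha, ?_⟩
  rw [fw_supp d hd a N hsupp]
  have haN : a N = s := if_pos rfl
  have haN1 : a (N + 1) = t := by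
    show (if N + 1 = N then s else if N + 1 = N + 1 then t else 0) = t
    rw [if_neg hne, if_pos rfl]
  rw [haN, haN1, hz]
  show (s : ℂ) * ze d ^ n + (t : ℂ) * ze d ^ (n + 1) = _
  have e1 : Complex.exp ((φ : ℂ) * Complex.I) = ze d ^ n * Complex.exp ((u : ℂ) * Complex.I) := by
    rw [ze_pow, ← Complex.exp_add, ← add_mul, ← Complex.ofReal_add]
    congr 3
    rw [hu]
    ring
  have e2 : (s : ℂ) + (t : ℂ) * ze d = (‖z‖ : ℂ) * Complex.exp ((u : ℂ) * Complex.I) := by
    have r1 := ze_pow_re d 1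
    have i1 := ze_pow_im d 1
    rw [pow_one, Nat.cast_one, one_mul] at r1 i1
    apply Complex.ext
    · rw [Complex.add_re, Complex.re_ofReal_mul, Complex.re_ofReal_mul, r1, Complex.ofReal_re,
        Complex.exp_ofReal_mul_I_re]
      show ‖z‖ * Real.sin (th d - u) / Real.sin (th d) +
        ‖z‖ * Real.sin u / Real.sin (th d) * Real.cos (th d) = ‖z‖ * Real.cos u
      rw [Real.sin_sub]
      field_simp
      ring
    · rw [Complex.add_im, Complex.im_ofReal_mul, Complex.im_ofReal_mul, i1, Complex.ofReal_im,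
        Complex.exp_ofReal_mul_I_im]
      show 0 + ‖z‖ * Real.sin u / Real.sin (th d) * Real.sin (th d) = ‖z‖ * Real.sin u
      field_simp
      ring
  rw [e1, pow_succ]
  linear_combination (ze d ^ n) * e2

theorem continuous_bb (d : ℕ) (k : Fin d) : Continuous (bb d k) := by
  unfold bb hh
  fun_prop

theorem pf_FAN : T_FAN := by
  intro d _ hd
  have key : ∀ z, ∀ a ∈ Fan d, fw d a = z → (fun k => bb d k z) = a := by
    intro z a ha h
    funext k
    rw [← h, bb_fw d hd a ha k]
  let e : Fan d ≃ₜ ℂ :=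
    { toFun := fun a => fw d a.1
      invFun := fun z => ⟨fun k => bb d k z, by
        obtain ⟨a, ha, haz⟩ := exists_fw d hd z
        rw [key z a ha haz]
        exact ha⟩
      left_inv := fun a => Subtype.ext (key _ a.1 a.2 rfl)
      right_inv := fun z => by
        obtain ⟨a, ha, haz⟩ := exists_fw d hd z
        show fw d (fun k => bb d k z) = z
        rw [key z a ha haz, haz]
      continuous_toFun := by
        show Continuous fun a : Fan d => ∑ k, ((a.1 k : ℝ) : ℂ) * ze d ^ k.val
        exact continuous_finsetSum _ fun k _ => (Complex.continuous_ofReal.comp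
          ((continuous_apply k).comp continuous_subtype_val)).mul continuous_const
      continuous_invFun := by
        refine Continuous.subtype_mk (continuous_pi fun k => continuous_bb d k) _ }
  exact ⟨e.trans Complex.orthonormalBasisOneI.repr.toHomeomorph⟩

end Pool.Agent.H82.PMF
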