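import Pool.Agent.H54.PM.Targets

set_option autoImplicit false

namespace Pool.Agent.H82.PMF

open Pool.Agent.H54.PM
open scoped symmDiff

theorem card_image_le' {A B C : Type*} [DecidableEq B] [DecidableEq C] (W : Finset A) (f : A → B)
    (k : A → C) (h : ∀ x ∈ W, ∀ y ∈ W, k x = k y → f x = f y) :
    (W.image f).card ≤ (W.image k).card := by
  classical
  have hch : ∀ y : {y // y ∈ W.image k}, ∃ x ∈ W, k x = y.1 := fun y => by
    obtain ⟨x, hx, hxy⟩ := Finset.mem_image.1 y.2
    exact ⟨x, hx, hxy⟩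
  choose c hc hc' using hch
  have hsub : W.image f ⊆ (W.image k).attach.image fun y => f (c y) := by
    intro z hz
    obtain ⟨x, hx, rfl⟩ := Finset.mem_image.1 hz
    refine Finset.mem_image.2 ⟨⟨k x, Finset.mem_image_of_mem k hx⟩, Finset.mem_attach _ _, ?_⟩
    exact h _ (hc _) _ hx (hc' _)
  refine (Finset.card_le_card hsub).trans (Finset.card_image_le.trans ?_)
  rw [Finset.card_attach]

theorem card_image_eq' {A B C : Type*} [DecidableEq B] [DecidableEq C] (W : Finset A) (f : A → B)
    (k : A → C) (h : ∀ x ∈ W, ∀ y ∈ W, f x = f y ↔ k x = k y) :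
    (W.image f).card = (W.image k).card :=
  le_antisymm (card_image_le' W f k fun x hx y hy => (h x hx y hy).2)
    (card_image_le' W k f fun x hx y hy => (h x hx y hy).1)

theorem wv_inj {p : ℕ} {s t : Fin p} (h : wv s = wv t) : s = t := by
  have h1 : (s.val : ℝ) = t.val := congrArg Prod.fst h
  exact Fin.ext (by exact_mod_cast h1)

theorem one_val {p : ℕ} [NeZero p] : (1 : Fin p).val = 1 % p := rfl

theorem one_ne (p : ℕ) [NeZero p] (hp : 3 ≤ p) : (1 : Fin p) ≠ 0 := by
  intro h
  have h2 := congrArg Fin.val h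
  rw [one_val, Nat.mod_eq_of_lt (by omega)] at h2
  exact absurd h2 (by simp)

theorem two_ne (p : ℕ) [NeZero p] (hp : 3 ≤ p) : (1 : Fin p) + 1 ≠ 0 := by
  intro h
  have h2 := congrArg Fin.val h
  rw [Fin.val_add, one_val, Nat.mod_eq_of_lt (by omega : 1 < p),
    Nat.mod_eq_of_lt (by omega : 1 + 1 < p)] at h2
  exact absurd h2 (by simp)

theorem rs2_iff {p : ℕ} [NeZero p] (i : Fin p) (g h : Wd p) :
    rs2 i g = rs2 i h ↔ ∀ t, t ≠ i → t ≠ i + 1 → g t = h t := by
  constructor
  · intro H t h1 h2
    have := congrFun H t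
    unfold rs2 at this
    rwa [if_neg (by tauto), if_neg (by tauto)] at this
  · intro H
    funext t
    unfold rs2
    split_ifs with h1
    · rfl
    · exact H t (by tauto) (by tauto)

theorem rs_iff {p : ℕ} [NeZero p] (i : Fin p) (g h : Wd p) :
    rs i g = rs i h ↔ ∀ t, t ≠ i → g t = h t := by
  constructor
  · intro H t h1
    have := congrFun H t
    unfold rs at this
    rwa [if_neg h1, if_neg h1] at this
  · intro H
    funext t
    unfold rs
    split_ifs with h1
    · rfl
    · exact H t h1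

theorem pf_CNT (h1 : T_PO1) (_h2 : T_PO2) (h3 : T_PTI) (h4 : T_EDG) : T_CNT := by
  classical
  intro p _ q W hp hq
  obtain ⟨hPT, -, -, hFC⟩ := h3 p q hp
  have hEL := (h1 p hp).1
  have h10 := one_ne p hp
  have h20 := two_ne p hp
  have hne1 : ∀ t : Fin p, t + 1 ≠ t := fun t h => h10 (by rwa [add_eq_left] at h)
  -- equality of points
  have hpt : ∀ g ∈ W, ∀ h ∈ W, ∀ s t : Fin p, pt q g (wv s) = pt q h (wv t) ↔
      s = t ∧ ∀ i, g i = h i ∨ s = i ∨ s = i + 1 := by
    intro g hg h hh s t
    rw [hPT g h (hq g hg) (hq h hh)]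
    constructor
    · rintro ⟨e, H⟩
      exact ⟨wv_inj e, fun i => (H i).imp_right fun h' => (hEL i s).2.1 h'⟩
    · rintro ⟨rfl, H⟩
      exact ⟨rfl, fun i => (H i).imp_right fun h' => (hEL i s).2.2 h'⟩
  refine ⟨?_, ?_, ?_⟩
  · -- vertices
    have e1 : ver (fam q W) = ((Finset.univ.biUnion fun t : Fin p =>
        W.image fun g => pt q g (wv t) : Finset (Sp p q)) : Set (Sp p q)) := by
      ext v
      simp only [ver, fam, fc, Set.mem_ofPred_eq, Finset.coe_biUnion, Finset.mem_coe,
        Finset.mem_image, Finset.mem_univ, Set.mem_iUnion]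
      constructor
      · rintro ⟨A, ⟨g, hg, rfl⟩, hv⟩
        obtain ⟨t, -, ht⟩ := Finset.mem_image.1 hv
        exact ⟨t, trivial, g, hg, ht⟩
      · rintro ⟨t, -, g, hg, ht⟩
        exact ⟨_, ⟨g, hg, rfl⟩, Finset.mem_image.2 ⟨t, Finset.mem_univ _, ht⟩⟩
    rw [e1, Set.ncard_coe_finset, Finset.card_biUnion]
    · unfold nV
      refine Fintype.sum_equiv (Equiv.subRight (1 : Fin p)) _ _ fun t => ?_
      refine card_image_eq' W _ _ fun g hg h hh => ?_
      rw [hpt g hg h hh t t, rs2_iff]
      show (t = t ∧ _) ↔ ∀ i, i ≠ t - 1 → i ≠ t - 1 + 1 → g i = h i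
      rw [sub_add_cancel]
      constructor
      · rintro ⟨-, H⟩ i hi hi'
        rcases H i with h' | h' | h'
        · exact h'
        · exact absurd h'.symm hi'
        · exact absurd (eq_sub_of_add_eq h'.symm) hi
      · intro H
        refine ⟨rfl, fun i => ?_⟩
        by_cases c1 : t = i
        · exact Or.inr (Or.inl c1)
        · by_cases c2 : t = i + 1
          · exact Or.inr (Or.inr c2)
          · exact Or.inl (H i (fun h' => c2 (by rw [h', sub_add_cancel])) fun h' => c1 h'.symm)
    · intro s _ t _ hst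
      refine Finset.disjoint_left.2 fun v hv hv' => ?_
      obtain ⟨g, hg, rfl⟩ := Finset.mem_image.1 hv
      obtain ⟨h, hh, e⟩ := Finset.mem_image.1 hv'
      exact hst ((hpt h hh g hg t s).1 e).1.symm
  · -- edges
    have e1 : edg (fam q W) = ((Finset.univ.biUnion fun t : Fin p =>
        W.image fun g => s(pt q g (wv t), pt q g (wv (t + 1))) : Finset (Sym2 (Sp p q))) :
          Set (Sym2 (Sp p q))) := by
      ext e
      simp only [edg, fam, Set.mem_ofPred_eq, Finset.coe_biUnion, Finset.mem_coe,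
        Finset.mem_image, Finset.mem_univ, Set.mem_iUnion]
      constructor
      · rintro ⟨A, ⟨g, hg, rfl⟩, u, v, huv, rfl⟩
        obtain ⟨t, ⟨hu, hv⟩ | ⟨hv, hu⟩⟩ := (h4 p q hp g (hq g hg) u v).1 huv
        · exact ⟨t, trivial, g, hg, by rw [hu, hv]⟩
        · exact ⟨t, trivial, g, hg, by rw [hu, hv, Sym2.eq_swap]⟩
      · rintro ⟨t, -, g, hg, rfl⟩
        exact ⟨_, ⟨g, hg, rfl⟩, _, _, (h4 p q hp g (hq g hg) _ _).2 ⟨t, Or.inl ⟨rfl, rfl⟩⟩, rfl⟩
    have hed : ∀ g ∈ W, ∀ h ∈ W, ∀ s t : Fin p,
        s(pt q g (wv s), pt q g (wv (s + 1))) = s(pt q h (wv t), pt q h (wv (t + 1))) ↔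
          s = t ∧ ∀ i, i ≠ s → g i = h i := by
      intro g hg h hh s t
      rw [Sym2.eq_iff, hpt g hg h hh, hpt g hg h hh, hpt g hg h hh, hpt g hg h hh]
      constructor
      · rintro (⟨⟨rfl, H1⟩, -, H2⟩ | ⟨⟨e1, -⟩, e2, -⟩)
        · refine ⟨rfl, fun i hi => ?_⟩
          rcases H1 i with h' | h' | h'
          · exact h'
          · exact absurd h'.symm hi
          · rcases H2 i with h'' | h'' | h''
            · exact h''
            · exfalso
              have : i + (1 + 1) = i := by
                rw [← add_assoc, ← h', h'']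
              rw [add_eq_left] at this
              exact h20 this
            · exact absurd (add_right_cancel h'').symm hi
        · exfalso
          rw [e1, add_assoc, add_eq_left] at e2
          exact h20 e2
      · rintro ⟨rfl, H⟩
        refine Or.inl ⟨⟨rfl, fun i => ?_⟩, rfl, fun i => ?_⟩
        · by_cases c : i = s
          · exact Or.inr (Or.inl c.symm)
          · exact Or.inl (H i c)
        · by_cases c : i = s
          · exact Or.inr (Or.inr (by rw [c]))
          · exact Or.inl (H i c)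
    rw [e1, Set.ncard_coe_finset, Finset.card_biUnion]
    · unfold nE
      refine Finset.sum_congr rfl fun t _ => ?_
      refine card_image_eq' W _ _ fun g hg h hh => ?_
      rw [hed g hg h hh t t, rs_iff]
      exact ⟨fun H => H.2, fun H => ⟨rfl, H⟩⟩
    · intro s _ t _ hst
      refine Finset.disjoint_left.2 fun v hv hv' => ?_
      obtain ⟨g, hg, rfl⟩ := Finset.mem_image.1 hv
      obtain ⟨h, hh, e⟩ := Finset.mem_image.1 hv'
      exact hst ((hed h hh g hg t s).1 e).1.symm
  · -- faces
    unfold fam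
    refine Finset.card_image_of_injOn fun g hg h hh e => ?_
    exact hFC g h (hq g hg) (hq h hh) e

end Pool.Agent.H82.PMF
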