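import Pool.Agent.H82.PMF.CNT

set_option autoImplicit false

namespace Pool.Agent.H82.PMF

open Pool.Agent.H54.PM
open scoped symmDiff

theorem fin_rec {p : ℕ} [NeZero p] (hp : 3 ≤ p) (F : Fin p → Prop) (hF : ∀ t, F t ↔ F (t + 1)) :
    ∀ t, F t ↔ F 0 := by
  have key : ∀ n : ℕ, ∀ t : Fin p, t.val = n → (F t ↔ F 0) := by
    intro n
    induction n with
    | zero =>
      intro t ht
      have : t = 0 := Fin.ext (by rw [ht]; rfl)
      rw [this]
    | succ n ih =>
      intro t ht
      have hn : n + 1 < p := by rw [← ht]; exact t.isLt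
      have e : (⟨n, by omega⟩ : Fin p) + 1 = t := by
        refine Fin.ext ?_
        rw [Fin.val_add, one_val, ht, Nat.mod_eq_of_lt (by omega : 1 < p),
          Nat.mod_eq_of_lt hn]
      rw [← e, ← hF]
      exact ih _ rfl
  exact fun t => key t.val t rfl

theorem pf_ORI (h1 : T_PO1) (h3 : T_PTI) (h4 : T_EDG) : T_ORI := by
  classical
  intro p _ q W hp hW hq
  obtain ⟨hPT, -, -, hFC⟩ := h3 p q hp
  have hEL := (h1 p hp).1
  have h10 := one_ne p hp
  have h20 := two_ne p hp
  have hne1 : ∀ t : Fin p, t + 1 ≠ t := fun t h => h10 (by rwa [add_eq_left] at h)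
  have hne2 : ∀ t : Fin p, t + 1 + 1 ≠ t := fun t h => h20 (by
    rwa [add_assoc, add_eq_left] at h)
  have hpt : ∀ g ∈ W, ∀ h ∈ W, ∀ s t : Fin p, pt q g (wv s) = pt q h (wv t) ↔
      s = t ∧ ∀ i, g i = h i ∨ s = i ∨ s = i + 1 := by
    intro g hg h hh s t
    rw [hPT g h (hq g hg) (hq h hh)]
    constructor
    · rintro ⟨e, H⟩
      exact ⟨wv_inj e, fun i => (H i).imp_right fun h' => (hEL i s).2.1 h'⟩
    · rintro ⟨rfl, H⟩
      exact ⟨rfl, fun i => (H i).imp_right fun h' => (hEL i s).2.2 h'⟩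
  have hfc : ∀ g ∈ W, ∀ h ∈ W, fc q g = fc q h → g = h := fun g hg h hh e =>
    hFC g h (hq g hg) (hq h hh) e
  have hedge : ∀ g ∈ W, ∀ u v, IsEdge (fc q g) u v → ∃ a b : Fin p, u = pt q g (wv a) ∧
      v = pt q g (wv b) ∧ (b = a + 1 ∨ a = b + 1) := by
    intro g hg u v huv
    obtain ⟨t, ⟨hu, hv⟩ | ⟨hv, hu⟩⟩ := (h4 p q hp g (hq g hg) u v).1 huv
    · exact ⟨t, t + 1, hu, hv, Or.inl rfl⟩
    · exact ⟨t + 1, t, hu, hv, Or.inr rfl⟩
  constructor
  · -- a colouring from an orientation
    rintro ⟨D, D1, D2, D3⟩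
    have hE : ∀ g ∈ W, ∀ t : Fin p, IsEdge (fc q g) (pt q g (wv t)) (pt q g (wv (t + 1))) :=
      fun g hg t => (h4 p q hp g (hq g hg) _ _).2 ⟨t, Or.inl ⟨rfl, rfl⟩⟩
    have hM : ∀ g ∈ W, fc q g ∈ fam q W := fun g hg => Finset.mem_image_of_mem _ hg
    have hall : ∀ g ∈ W, ∀ t : Fin p, D (fc q g) (pt q g (wv t)) (pt q g (wv (t + 1))) ↔
        D (fc q g) (pt q g (wv (0 : Fin p))) (pt q g (wv ((0 : Fin p) + 1))) := by
      intro g hg
      refine fin_rec hp (fun t : Fin p =>
        D (fc q g) (pt q g (wv t)) (pt q g (wv (t + 1)))) fun t => ?_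
      refine D2 _ (hM g hg) _ _ _ (hE g hg t) (hE g hg (t + 1)) fun e => ?_
      exact hne2 t ((hpt g hg g hg _ _).1 e).1.symm
    refine ⟨fun g => decide (D (fc q g) (pt q g (wv (0 : Fin p))) (pt q g (wv ((0 : Fin p) + 1)))), ?_⟩
    rintro g hg h hh hgh ⟨i, hi⟩ hc
    have e1 : pt q g (wv i) = pt q h (wv i) := (hpt g hg h hh i i).2 ⟨rfl, fun j => by
      by_cases c : j = i
      · exact Or.inr (Or.inl c.symm)
      · exact Or.inl (hi j c)⟩
    have e2 : pt q g (wv (i + 1)) = pt q h (wv (i + 1)) := (hpt g hg h hh _ _).2 ⟨rfl, fun j => by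
      by_cases c : j = i
      · exact Or.inr (Or.inr (by rw [c]))
      · exact Or.inl (hi j c)⟩
    have q1 := D3 _ (hM g hg) _ (hM h hh) (fun e => hgh (hfc g hg h hh e)) _ _ (hE g hg i)
      (by rw [e1, e2]; exact hE h hh i)
    have q2 := D1 _ (hM h hh) _ _ (hE h hh i)
    rw [hall g hg i, e1, e2] at q1
    rw [hall h hh i] at q2
    have hc' := decide_eq_decide.1 hc
    tauto
  · -- an orientation from a colouring
    rintro ⟨c, hc⟩
    let D : Finset (Sp p q) → Sp p q → Sp p q → Prop := fun A u v => ∃ g ∈ W, A = fc q g ∧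
      ∃ t : Fin p, (c g = true ∧ u = pt q g (wv t) ∧ v = pt q g (wv (t + 1))) ∨
        (c g = false ∧ v = pt q g (wv t) ∧ u = pt q g (wv (t + 1)))
    have HD : ∀ g ∈ W, ∀ s t : Fin p, D (fc q g) (pt q g (wv s)) (pt q g (wv t)) ↔
        (c g = true ∧ t = s + 1) ∨ (c g = false ∧ s = t + 1) := by
      intro g hg s t
      constructor
      · rintro ⟨g', hg', e, r, ⟨h1, h2, h3⟩ | ⟨h1, h2, h3⟩⟩
        · obtain rfl := hfc g hg g' hg' e
          have a1 := ((hpt g hg g hg _ _).1 h2).1
          have a2 := ((hpt g hg g hg _ _).1 h3).1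
          exact Or.inl ⟨h1, by rw [a2, a1]⟩
        · obtain rfl := hfc g hg g' hg' e
          have a1 := ((hpt g hg g hg _ _).1 h2).1
          have a2 := ((hpt g hg g hg _ _).1 h3).1
          exact Or.inr ⟨h1, by rw [a2, a1]⟩
      · rintro (⟨h1, rfl⟩ | ⟨h1, rfl⟩)
        · exact ⟨g, hg, rfl, s, Or.inl ⟨h1, rfl, rfl⟩⟩
        · exact ⟨g, hg, rfl, t, Or.inr ⟨h1, rfl, rfl⟩⟩
    have hex : ∀ g, c g = true ↔ ¬ c g = false := fun g => by
      cases c g <;> simp
    refine ⟨D, ?_, ?_, ?_⟩
    · intro A hA u v huv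
      obtain ⟨g, hg, rfl⟩ := Finset.mem_image.1 hA
      obtain ⟨a, b, rfl, rfl, hab⟩ := hedge g hg u v huv
      rw [HD g hg, HD g hg]
      rcases hab with rfl | rfl
      · have := hne2 a
        have := hex g
        have h5 : a ≠ a + 1 + 1 := fun h => hne2 a h.symm
        tauto
      · have := hex g
        have h5 : b ≠ b + 1 + 1 := fun h => hne2 b h.symm
        tauto
    · intro A hA u v w huv hvw huw
      obtain ⟨g, hg, rfl⟩ := Finset.mem_image.1 hA
      obtain ⟨a, b, rfl, rfl, hab⟩ := hedge g hg u v huv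
      obtain ⟨b', e, hb, rfl, hbe⟩ := hedge g hg _ w hvw
      obtain rfl := ((hpt g hg g hg _ _).1 hb).1
      have hae : a ≠ e := fun h => huw (by rw [h])
      rw [HD g hg, HD g hg]
      rcases hab with rfl | rfl
      · rcases hbe with rfl | hbe
        · have h5 : a ≠ a + 1 + 1 := fun h => hne2 a h.symm
          have h6 : a + 1 ≠ a + 1 + 1 + 1 := fun h => hne2 (a + 1) h.symm
          tauto
        · exact absurd (add_right_cancel hbe) hae
      · rcases hbe with rfl | rfl
        · exact absurd rfl hae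
        · have h5 : e ≠ e + 1 + 1 := fun h => hne2 e h.symm
          have h6 : e + 1 ≠ e + 1 + 1 + 1 := fun h => hne2 (e + 1) h.symm
          tauto
    · intro A hA B hB hAB u v huv huv'
      obtain ⟨g, hg, rfl⟩ := Finset.mem_image.1 hA
      obtain ⟨h, hh, rfl⟩ := Finset.mem_image.1 hB
      have hgh : g ≠ h := fun e => hAB (by rw [e])
      obtain ⟨a, b, rfl, rfl, hab⟩ := hedge g hg u v huv
      obtain ⟨a', b', ha, hb, hab'⟩ := hedge h hh _ _ huv'
      obtain ⟨rfl, Ha⟩ := (hpt g hg h hh _ _).1 ha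
      obtain ⟨rfl, Hb⟩ := (hpt g hg h hh _ _).1 hb
      rw [HD g hg, ha, hb, HD h hh]
      have hcc : c g ≠ c h := by
        refine hc g hg h hh hgh ?_
        rcases hab with rfl | rfl
        · refine ⟨a, fun i hi => ?_⟩
          rcases Ha i with h' | h' | h'
          · exact h'
          · exact absurd h'.symm hi
          · rcases Hb i with h'' | h'' | h''
            · exact h''
            · exact absurd ((congrArg (· + 1) h').symm.trans h'') (hne2 i)
            · exact absurd (add_right_cancel h'').symm hi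
        · refine ⟨b, fun i hi => ?_⟩
          rcases Hb i with h' | h' | h'
          · exact h'
          · exact absurd h'.symm hi
          · rcases Ha i with h'' | h'' | h''
            · exact h''
            · exact absurd ((congrArg (· + 1) h').symm.trans h'') (hne2 i)
            · exact absurd (add_right_cancel h'').symm hi
      have hc2 : (c g = true ↔ c h = false) ∧ (c g = false ↔ c h = true) := by
        revert hcc
        cases c g <;> cases c h <;> simp
      rcases hab with rfl | rfl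
      · have h5 : a ≠ a + 1 + 1 := fun h => hne2 a h.symm
        tauto
      · have h5 : b ≠ b + 1 + 1 := fun h => hne2 b h.symm
        tauto

end Pool.Agent.H82.PMF
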